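import Pool.Agent.H207.BT.Stm5

/-!
# BT RPL: all periodic points of Collet-Eckmann maps are repelling (helper738)
-/

set_option autoImplicit false

open Topology Filter Metric Set MeasureTheory Polynomial

namespace Pool.Agent.H738.BT207

open Pool.Agent.H207.BT Pool.Agent.H790R3.RB Pool.Agent.H211.HY

theorem cr_tr {p q r : ℂ × ℂ} (hq : q ≠ 0) (h1 : cr p q = 0) (h2 : cr q r = 0) :
    cr p r = 0 := by
  unfold cr at *
  by_cases h : q.1 = 0
  · have h3 : q.2 ≠ 0 := fun h4 => hq (Prod.ext h h4)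
    apply mul_left_cancel₀ h3
    rw [mul_zero]
    linear_combination r.2 * h1 + p.2 * h2
  · apply mul_left_cancel₀ h
    rw [mul_zero]
    linear_combination r.1 * h1 + p.1 * h2

theorem cr_sw {p q : ℂ × ℂ} (h : cr p q = 0) : cr q p = 0 := by
  unfold cr at *
  linear_combination -h

theorem hF_df {d : ℕ} (x : CV d) : Differentiable ℂ (hF x) := by
  unfold hF
  fun_prop

/-- the hermitian form -/
noncomputable def inn (a e : ℂ × ℂ) : ℂ := a.1 * (starRingEnd ℂ) e.1 + a.2 * (starRingEnd ℂ) e.2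

theorem inn_sq (a e : ℂ × ℂ) : ‖cr a e‖ ^ 2 + ‖inn a e‖ ^ 2 = N2 a * N2 e := by
  unfold cr inn N2
  simp only [← Complex.normSq_eq_norm_sq, Complex.normSq_apply, Complex.add_re, Complex.add_im,
    Complex.sub_re, Complex.sub_im, Complex.mul_re, Complex.mul_im, Complex.conj_re,
    Complex.conj_im]
  ring

theorem inn_self (e : ℂ × ℂ) : inn e e = ((N2 e : ℝ) : ℂ) := by
  unfold inn N2
  rw [Complex.mul_conj, Complex.mul_conj, Complex.normSq_eq_norm_sq, Complex.normSq_eq_norm_sq]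
  push_cast
  rfl

theorem cr_self (e : ℂ × ℂ) : cr e e = 0 := by
  unfold cr
  ring

/-- the speeds of two lifts of the same curve agree -/
theorem spd_par {h₁ h₂ : ℂ → ℂ × ℂ} {z : ℂ} (d1 : DifferentiableAt ℂ h₁ z)
    (d2 : DifferentiableAt ℂ h₂ z) (n1 : h₁ z ≠ 0) (n2 : h₂ z ≠ 0)
    (hp : ∀ᶠ w in 𝓝 z, cr (h₁ w) (h₂ w) = 0) : spd h₁ z = spd h₂ z := by
  obtain ⟨a, ha, e⟩ := (cr_eq_zero_iff n1 n2).1 hp.self_of_nhds
  have D1 := d1.hasDerivAt
  have D2 := d2.hasDerivAt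
  have a1 : HasDerivAt (fun w => (h₁ w).1) (deriv h₁ z).1 z := D1.fst
  have a2 : HasDerivAt (fun w => (h₁ w).2) (deriv h₁ z).2 z := D1.snd
  have b1 : HasDerivAt (fun w => (h₂ w).1) (deriv h₂ z).1 z := D2.fst
  have b2 : HasDerivAt (fun w => (h₂ w).2) (deriv h₂ z).2 z := D2.snd
  have hd : HasDerivAt (fun w => cr (h₁ w) (h₂ w)) (((deriv h₁ z).1 * (h₂ z).2 +
      (h₁ z).1 * (deriv h₂ z).2) - ((deriv h₁ z).2 * (h₂ z).1 + (h₁ z).2 * (deriv h₂ z).1)) z :=
    (a1.mul b2).sub (a2.mul b1)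
  have h0 : HasDerivAt (fun w => cr (h₁ w) (h₂ w)) 0 z :=
    (hasDerivAt_const z (0 : ℂ)).congr_of_eventuallyEq hp
  have h3 := hd.unique h0
  have e1 : (h₁ z).1 = a * (h₂ z).1 := by rw [e]; rfl
  have e2 : (h₁ z).2 = a * (h₂ z).2 := by rw [e]; rfl
  have key : cr (deriv h₁ z) (h₁ z) = a ^ 2 * cr (deriv h₂ z) (h₂ z) := by
    unfold cr
    rw [e1, e2] at h3 ⊢
    linear_combination a * h3
  have hN : N2 (h₁ z) = ‖a‖ ^ 2 * N2 (h₂ z) := by
    unfold N2
    rw [e1, e2, norm_mul, norm_mul]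
    ring
  have ha2 : ‖a‖ ^ 2 ≠ 0 := pow_ne_zero _ (norm_ne_zero_iff.2 ha)
  unfold spd
  rw [key, hN, norm_mul, norm_pow, mul_div_mul_left _ _ ha2]

theorem spd_iot (τ : Bool) {y : ℂ} (hy : ‖y‖ ≤ 1) : 1 / 2 ≤ spd (iot τ) y := by
  have hn : 0 ≤ ‖y‖ := norm_nonneg y
  have h2 : ‖y‖ ^ 2 ≤ 1 := pow_le_one₀ hn hy
  cases τ
  · have hd : HasDerivAt (iot false) ((0, 1) : ℂ × ℂ) y := by
      have := (hasDerivAt_const y (1 : ℂ)).prodMk (hasDerivAt_id y)
      exact this
    unfold spd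
    rw [hd.deriv]
    have e : iot false y = (1, y) := rfl
    rw [e]
    simp only [cr, N2, zero_mul, one_mul, zero_sub, norm_neg, norm_one, one_pow]
    rw [div_le_div_iff₀ (by norm_num) (by positivity)]
    linarith
  · have hd : HasDerivAt (iot true) ((1, 0) : ℂ × ℂ) y := by
      have := (hasDerivAt_id y).prodMk (hasDerivAt_const y (1 : ℂ))
      exact this
    unfold spd
    rw [hd.deriv]
    have e : iot true y = (y, 1) := rfl
    rw [e]
    simp only [cr, N2, zero_mul, one_mul, sub_zero, norm_one, one_pow]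
    rw [div_le_div_iff₀ (by norm_num) (by positivity)]
    linarith

/-- Cauchy's estimate for the speed -/
theorem spd_le {g : ℂ → ℂ × ℂ} {y : ℂ} {R η : ℝ} (hR : 0 < R) (hη : 0 < η) (hη2 : η ≤ 1 / 2)
    (hg : DifferentiableOn ℂ g (ball y R)) (hg0 : ∀ w ∈ ball y R, g w ≠ 0)
    (hc : ∀ u ∈ ball y (R / 8), cho (g u) (g y) < η) : spd g y ≤ 32 * η / R := by
  have hyR : y ∈ ball y R := mem_ball_self hR
  have hy8 : y ∈ ball y (R / 8) := mem_ball_self (by positivity)
  have he0 := hg0 y hyR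
  have hN := N2_pos he0
  have hsub : ball y (R / 8) ⊆ ball y R := ball_subset_ball (by linarith)
  have hcl : closedBall y (R / 16) ⊆ ball y (R / 8) := closedBall_subset_ball (by linarith)
  have hbd : ∀ u ∈ ball y (R / 8), inn (g u) (g y) ≠ 0 ∧
      ‖cr (g u) (g y) / inn (g u) (g y)‖ ≤ 2 * η := by
    intro u hu
    have h1 := hc u hu
    have hNu := N2_pos (hg0 u (hsub hu))
    have hNN : 0 < N2 (g u) * N2 (g y) := mul_pos hNu hN
    unfold cho at h1
    rw [div_lt_iff₀ (Real.sqrt_pos.2 hNN)] at h1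
    have h2 : ‖cr (g u) (g y)‖ ^ 2 ≤ η ^ 2 * (N2 (g u) * N2 (g y)) := by
      have := pow_le_pow_left₀ (norm_nonneg _) h1.le 2
      rwa [mul_pow, Real.sq_sqrt hNN.le] at this
    have h3 := inn_sq (g u) (g y)
    have h4 : η ^ 2 ≤ 1 / 4 := by nlinarith
    have h5 : 3 / 4 * (N2 (g u) * N2 (g y)) ≤ ‖inn (g u) (g y)‖ ^ 2 := by nlinarith
    have h6 : inn (g u) (g y) ≠ 0 := by
      intro h7
      rw [h7, norm_zero] at h5
      nlinarith
    refine ⟨h6, ?_⟩
    rw [norm_div, div_le_iff₀ (norm_pos_iff.2 h6)]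
    apply le_of_sq_le_sq _ (by positivity)
    rw [mul_pow, mul_pow]
    nlinarith [sq_nonneg η]
  have hdiff : DifferentiableOn ℂ (fun u => cr (g u) (g y) / inn (g u) (g y))
      (ball y (R / 8)) := by
    intro u hu
    have h1 : DifferentiableAt ℂ g u := (hg u (hsub hu)).differentiableAt
      (isOpen_ball.mem_nhds (hsub hu))
    have h2 : DifferentiableAt ℂ (fun u => cr (g u) (g y)) u := by
      unfold cr
      exact (h1.fst.mul_const _).sub (h1.snd.mul_const _)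
    have h3 : DifferentiableAt ℂ (fun u => inn (g u) (g y)) u := by
      unfold inn
      exact (h1.fst.mul_const _).add (h1.snd.mul_const _)
    exact (h2.div h3 (hbd u hu).1).differentiableWithinAt
  have hC := Complex.norm_deriv_le_of_forall_mem_sphere_norm_le (c := y) (R := R / 16)
    (C := 2 * η) (f := fun u => cr (g u) (g y) / inn (g u) (g y)) (by positivity)
    (hdiff.diffContOnCl_ball hcl) (fun u hu => (hbd u (hcl (sphere_subset_closedBall hu))).2)
  have hgy : HasDerivAt g (deriv g y) y :=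
    ((hg y hyR).differentiableAt (isOpen_ball.mem_nhds hyR)).hasDerivAt
  have f1 : HasDerivAt (fun u => (g u).1) (deriv g y).1 y := hgy.fst
  have f2 : HasDerivAt (fun u => (g u).2) (deriv g y).2 y := hgy.snd
  have d1 : HasDerivAt (fun u => cr (g u) (g y)) (cr (deriv g y) (g y)) y :=
    (f1.mul_const _).sub (f2.mul_const _)
  have d2 : HasDerivAt (fun u => inn (g u) (g y)) (inn (deriv g y) (g y)) y :=
    (f1.mul_const _).add (f2.mul_const _)
  have d3 := (d1.div d2 (hbd y hy8).1).deriv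
  have e1 : deriv (fun u => cr (g u) (g y) / inn (g u) (g y)) y =
      cr (deriv g y) (g y) / ((N2 (g y) : ℝ) : ℂ) := by
    refine d3.trans ?_
    rw [cr_self, zero_mul, sub_zero, inn_self, sq, mul_div_mul_right]
    exact_mod_cast hN.ne'
  rw [e1, norm_div, Complex.norm_real, Real.norm_of_nonneg hN.le] at hC
  unfold spd
  calc ‖cr (deriv g y) (g y)‖ / N2 (g y) ≤ 2 * η / (R / 16) := hC
    _ = 32 * η / R := by field_simp; ring

theorem sdn_add {d : ℕ} (x : CV d) (a b : ℕ) (p : ℂ × ℂ) :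
    sdn x (a + b) p = sdn x a p * sdn x b ((hF x)^[a] p) := by
  unfold sdn
  rw [Finset.prod_range_add]
  congr 1
  refine Finset.prod_congr rfl fun j _ => ?_
  rw [add_comm a j, Function.iterate_add_apply]

theorem sdn_nonneg {d : ℕ} (x : CV d) (n : ℕ) (p : ℂ × ℂ) : 0 ≤ sdn x n p := by
  unfold sdn
  refine Finset.prod_nonneg fun j _ => ?_
  unfold sd N2
  positivity

theorem t_RPL (hHIT : S_HITL) (hSHJ : S_SHJ) (hLEO : S_LEOJ) (hCHO : S_CHO) :
    Pool.Agent.H207.BT.S_RPL := by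
  intro d k x c m hH hN hFa p n hp hn hper
  obtain ⟨t1, t2, t3, t4, t5⟩ := hCHO
  obtain ⟨s1, s2, s3, s4, s5⟩ := t5 d x hH.hd hH.nd
  have hLJ := hLEO d x hH.hd hH.nd hH.ce
  have hd2 := hH.hd
  -- periodicity
  have par : ∀ l, cr ((hF x)^[l + n] p) ((hF x)^[l] p) = 0 := by
    intro l
    rw [Function.iterate_add_apply]
    exact s3 l _ _ hper
  have parN : ∀ N, cr ((hF x)^[n * N] p) p = 0 := by
    intro N
    induction N with
    | zero => rw [mul_zero]; exact cr_self p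
    | succ N ih =>
      rw [mul_add, mul_one]
      exact cr_tr (s4 _ p hp) (par (n * N)) ih
  have sdpar : ∀ l (q q' : ℂ × ℂ), q ≠ 0 → q' ≠ 0 → cr q q' = 0 → sdn x l q = sdn x l q' := by
    intro l q q' h1 h2 h3
    obtain ⟨a, ha, rfl⟩ := (cr_eq_zero_iff h1 h2).1 h3
    exact s2 l q' a ha h2
  have chpar : ∀ (q q' r : ℂ × ℂ), q ≠ 0 → q' ≠ 0 → cr q q' = 0 → cho q r = cho q' r := by
    intro q q' r h1 h2 h3
    obtain ⟨a, ha, rfl⟩ := (cr_eq_zero_iff h1 h2).1 h3
    have := t4 q' r a 1 ha one_ne_zero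
    rwa [one_smul] at this
  have hpow : ∀ N, sdn x (n * N) p = sdn x n p ^ N := by
    intro N
    induction N with
    | zero => rw [mul_zero, pow_zero, sdn, Finset.range_zero, Finset.prod_empty]
    | succ N ih =>
      rw [mul_add, mul_one, sdn_add, ih, pow_succ, sdpar n _ _ (s4 _ p hp) hp (parN N)]
  -- no critical points on the cycle
  have hnc : ∀ l, wr x ((hF x)^[l] p) ≠ 0 := by
    intro l hw
    have hq := s4 l p hp
    obtain ⟨C, hC, μ, hμ, hg⟩ := hH.ce _ hq hw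
    have h1 := hg n
    have h2 : sdn x n (hF x ((hF x)^[l] p)) = 0 := by
      unfold sdn
      refine Finset.prod_eq_zero (Finset.mem_range.2 (Nat.sub_lt hn one_pos)) ?_
      have e : (hF x)^[n - 1] (hF x ((hF x)^[l] p)) = (hF x)^[l + n] p := by
        rw [← Function.iterate_succ_apply, ← Function.iterate_add_apply]
        congr 1
        omega
      have h3 : wr x ((hF x)^[l + n] p) = 0 :=
        wr_of_par hd2 x (s4 _ p hp) hq (par l) hw
      rw [e, sd, h3, norm_zero, zero_mul, zero_div]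
    rw [h2] at h1
    have : 0 < C * μ ^ n := by positivity
    linarith
  have hch : ∀ l i, 0 < cho ((hF x)^[l] p) (c i, 1) ^ (m i + 1) := by
    intro l i
    refine pow_pos (cho_pos (s4 l p hp) (one_ne (c i)) fun h => ?_) _
    exact hnc l (wr_of_par hd2 x (s4 l p hp) (one_ne (c i)) h (hFa.crit i))
  obtain ⟨η₀, hη₀, hη₀le⟩ : ∃ η₀ : ℝ, 0 < η₀ ∧
      ∀ l i, η₀ ≤ cho ((hF x)^[l] p) (c i, 1) ^ (m i + 1) := by
    have hp0 : ∀ᶠ e in 𝓝[>] (0 : ℝ), 0 < e := self_mem_nhdsWithin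
    have hfin : ∀ᶠ e in 𝓝[>] (0 : ℝ), ∀ i : Fin k, ∀ l ∈ Finset.range n,
        e < cho ((hF x)^[l] p) (c i, 1) ^ (m i + 1) := by
      rw [eventually_all]
      intro i
      rw [Finset.eventually_all]
      intro l _
      exact mem_nhdsWithin_of_mem_nhds (Iio_mem_nhds (hch l i))
    obtain ⟨e, he0, he⟩ := (hp0.and hfin).exists
    refine ⟨e, he0, fun l i => ?_⟩
    have hperiod : Function.Periodic
        (fun l => cho ((hF x)^[l] p) (c i, 1) ^ (m i + 1)) n := by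
      intro l
      change cho ((hF x)^[l + n] p) (c i, 1) ^ (m i + 1) =
        cho ((hF x)^[l] p) (c i, 1) ^ (m i + 1)
      rw [chpar _ _ _ (s4 _ p hp) (s4 _ p hp) (par l)]
    have h1 : cho ((hF x)^[l % n] p) (c i, 1) ^ (m i + 1) =
        cho ((hF x)^[l] p) (c i, 1) ^ (m i + 1) := hperiod.map_mod_nat l
    rw [← h1]
    exact (he i (l % n) (Finset.mem_range.2 (Nat.mod_lt _ hn))).le
  -- the branches
  obtain ⟨μ, hμ, c₀, hc₀, hgr, hθ⟩ := hHIT d k x c m hH.hd hH.nd hH.ce hN hFa hLJ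
  obtain ⟨C, hC, R₁, hR₁, hbr⟩ := hθ ((1 + μ) / 2) (by linarith) (by linarith)
  obtain ⟨R₂, hR₂, hsh⟩ := hSHJ d x hH.hd hH.nd hH.ce hLJ
  obtain ⟨R, hR, hRR₁, hRR₂, hR3⟩ : ∃ R : ℝ, 0 < R ∧ R ≤ R₁ ∧ R ≤ R₂ ∧ C * R < η₀ * c₀ := by
    refine ⟨min R₁ (min R₂ (η₀ * c₀ / (2 * C))), lt_min hR₁ (lt_min hR₂ (by positivity)),
      min_le_left _ _, (min_le_right _ _).trans (min_le_left _ _), ?_⟩
    have h1 : min R₁ (min R₂ (η₀ * c₀ / (2 * C))) ≤ η₀ * c₀ / (2 * C) :=
      (min_le_right _ _).trans (min_le_right _ _)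
    have h2 := mul_le_mul_of_nonneg_left h1 hC.le
    have h3 : C * (η₀ * c₀ / (2 * C)) = η₀ * c₀ / 2 := by field_simp
    have h4 : 0 < η₀ * c₀ := by positivity
    linarith
  have hη : 0 < min (1 / 2 : ℝ) (R / 128) := lt_min (by norm_num) (by positivity)
  obtain ⟨T, hT⟩ := hsh _ hη
  have hNT : T ≤ n * (T + 1) := by nlinarith
  have hpi : cr p (iot (tau p) (zc p)) = 0 := by
    have e := iot_zc hp
    have h1 : cr (dn (tau p) p • iot (tau p) (zc p)) (iot (tau p) (zc p)) = 0 := by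
      unfold cr
      simp only [Prod.smul_fst, Prod.smul_snd, smul_eq_mul]
      ring
    rwa [← e] at h1
  have hg : ∃ g, BrT x (n * (T + 1)) (tau p) (zc p) R g ∧ cr (g (zc p)) p = 0 := by
    rcases hbr R hR hRR₁ (n * (T + 1)) (tau p) (zc p) p hp (cr_tr hp (parN _) hpi) with
      h | ⟨j, hj, i, h1, h2⟩
    · exact h
    · exfalso
      have h3 := hgr i j
      have h4 := hη₀le (n * (T + 1) - 1 - j) i
      have h5 : η₀ * (c₀ * μ ^ j) ≤ C * ((1 + μ) / 2) ^ j * R :=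
        (mul_le_mul h4 h3 (by positivity) (hch _ i).le).trans h2
      have h6 : ((1 + μ) / 2) ^ j ≤ μ ^ j := pow_le_pow_left₀ (by linarith) (by linarith) j
      have h7 : 0 < μ ^ j := by positivity
      have h8 : C * ((1 + μ) / 2) ^ j * R ≤ C * μ ^ j * R :=
        mul_le_mul_of_nonneg_right (mul_le_mul_of_nonneg_left h6 hC.le) hR.le
      have h9 : C * R * μ ^ j < η₀ * c₀ * μ ^ j := mul_lt_mul_of_pos_right hR3 h7
      nlinarith
  obtain ⟨g, ⟨hg1, hg2⟩, hg3⟩ := hg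
  have hyR : zc p ∈ ball (zc p) R := mem_ball_self hR
  have hg0 : ∀ w ∈ ball (zc p) R, g w ≠ 0 := fun w hw => (hg2 w hw).1
  have hshr : ∀ u ∈ ball (zc p) (R / 8), cho (g u) (g (zc p)) < min (1 / 2 : ℝ) (R / 128) :=
    fun u hu => hT _ hNT (tau p) (zc p) R g hR hRR₂ ⟨hg1, hg2⟩ u hu
      (hH.jul _ (hg0 u (ball_subset_ball (by linarith) hu)))
  have hsp := spd_le hR hη (min_le_left _ _) hg1 hg0 hshr
  have hsp2 : spd g (zc p) ≤ 1 / 4 := by
    refine hsp.trans ?_
    rw [div_le_iff₀ hR]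
    have := min_le_right (1 / 2 : ℝ) (R / 128)
    linarith
  -- the chain rule
  have hgd : DifferentiableAt ℂ g (zc p) :=
    (hg1 _ hyR).differentiableAt (isOpen_ball.mem_nhds hyR)
  have hs := s1 g (zc p) (n * (T + 1)) hgd (hg0 _ hyR)
  have hi : spd (fun w => (hF x)^[n * (T + 1)] (g w)) (zc p) = spd (iot (tau p)) (zc p) := by
    refine spd_par ?_ ?_ (s4 _ _ (hg0 _ hyR)) (iot_ne _ _) ?_
    · exact (((hF_df x).iterate _).differentiableAt).comp (zc p) hgd
    · cases tau p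
      · exact (differentiableAt_const _).prodMk differentiableAt_id
      · exact differentiableAt_id.prodMk (differentiableAt_const _)
    · filter_upwards [isOpen_ball.mem_nhds hyR] with w hw
      exact (hg2 w hw).2
  rw [hi, sdpar _ _ _ (hg0 _ hyR) hp hg3, hpow] at hs
  have h1 := spd_iot (tau p) (y := zc p) norm_zc
  by_contra hcon
  push Not at hcon
  have h2 : sdn x n p ^ (T + 1) ≤ 1 := pow_le_one₀ (sdn_nonneg x n p) hcon
  have h3 : 0 ≤ sdn x n p ^ (T + 1) := pow_nonneg (sdn_nonneg x n p) _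
  have h4 : sdn x n p ^ (T + 1) * spd g (zc p) ≤ 1 * (1 / 4) := by
    have h5 : 0 ≤ spd g (zc p) := by
      unfold spd N2
      positivity
    exact mul_le_mul h2 hsp2 h5 zero_le_one
  linarith

end Pool.Agent.H738.BT207
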